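import Pool.Agent.H.MP_4da284_al.E

set_option autoImplicit false

namespace Pool.Agent.Results.MP_4da284_al.Q2

open Pool.Agent.H.MP_4da284_al

theorem result (K : Type) [Field K] [CharZero K] : Fails K (UW K) ∧ Fails K (UVir K) :=
  main

end Pool.Agent.Results.MP_4da284_al.Q2
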